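import Pool.Agent.H73.GWQ.Stmts2

/-! Row N8Q of the board gwq (MP_213ba5_lc): the pair of elements. -/

set_option autoImplicit false

open Classical

namespace GWQ

variable {G V : Type*} [Group G] (D : QM G V)

theorem n8_inv (g : G) : D.nm g⁻¹ = D.nm g := by
  unfold QM.nm
  have h := D.inv g 1 g⁻¹
  rw [mul_one, mul_inv_cancel] at h
  rw [← h]
  exact D.comm _ _

/-- the product written as a distance -/
theorem n8_mul (u v : G) : D.nm (u * v) = D.d u⁻¹ v := by
  unfold QM.nm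
  have h := D.inv u⁻¹ 1 (u * v)
  rw [mul_one, inv_mul_cancel_left] at h
  exact h.symm

/-- right multiplication by `x⁻¹` moves by `nm x` -/
theorem n8_right (u x : G) : D.d (u * x⁻¹) u = D.nm x := by
  have h := D.inv u x⁻¹ 1
  rw [mul_one] at h
  rw [h, D.comm]
  exact n8_inv D x

theorem n8_norm (u x : G) : D.nm u ≤ D.nm (u * x⁻¹) + D.nm x ∧
    D.nm (u * x⁻¹) ≤ D.nm u + D.nm x := by
  have h1 := D.tri 1 (u * x⁻¹) u
  have h2 := D.tri 1 u (u * x⁻¹)
  have h3 := n8_right D u x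
  have h4 := D.comm u (u * x⁻¹)
  unfold QM.nm at *
  omega

/-- left multiplication by `x` -/
theorem n8_left (u x : G) : D.nm u ≤ D.nm (x * u) + D.nm x ∧
    D.nm (x * u) ≤ D.nm u + D.nm x := by
  have h0 : D.d x (x * u) = D.nm u := by
    have h := D.inv x 1 u
    rwa [mul_one] at h
  have h1 := D.tri 1 x (x * u)
  have h2 := D.tri x 1 (x * u)
  have h4 := D.comm x 1
  unfold QM.nm at *
  omega

theorem n8_dist (v u x : G) : D.d v u ≤ D.d v (u * x⁻¹) + D.nm x := by
  have h1 := D.tri v (u * x⁻¹) u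
  have h3 := n8_right D u x
  omega

theorem N8Q (h1 : N1QStmt D) (h4 : N4QStmt D) (h7 : N7QStmt D) : N8QStmt D := by
  intro g hg hw hi
  obtain ⟨x, K₁, hx⟩ := h7 g hg hw hi
  obtain ⟨hadd, -, hlen⟩ := h1 g hg
  set B := BB D g with hB
  set X := D.nm x with hX
  set k : ℕ := K₁ + B + 8 * X + 4 * D.δ + 1 with hk
  obtain ⟨n₀, hn₀⟩ := h4 g hg hw (400 * k)
  set p : ℕ := n₀ + 1000 * k + 2 * X with hp
  have hfin := (hn₀ p (by omega)).1
  -- the basic numbers
  have e1 := hx (p : ℤ) (p : ℤ)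
  have e2 := hx (-(p : ℤ)) (p : ℤ)
  have e3 := hx (p : ℤ) (-(p : ℤ))
  have e4 := hx (-(p : ℤ)) (-(p : ℤ))
  simp only [zpow_neg, zpow_natCast] at e1 e2 e3 e4
  set a : G := g ^ p with ha
  have hai : D.nm a⁻¹ = D.nm a := n8_inv D a
  set b : G := x * a * x⁻¹ with hb
  have hbi : b⁻¹ = x * a⁻¹ * x⁻¹ := by rw [hb]; group
  have hbn : D.nm b⁻¹ = D.nm b := n8_inv D b
  have f1 := n8_norm D (x * a) x
  have f2 := n8_norm D (x * a⁻¹) x
  have f3 := n8_left D a x
  rw [← hb] at f1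
  rw [← hbi] at f2
  have g1 := n8_dist D a (x * a) x
  have g2 := n8_dist D a⁻¹ (x * a) x
  have g3 := n8_dist D a (x * a⁻¹) x
  have g4 := n8_dist D a⁻¹ (x * a⁻¹) x
  rw [← hb] at g1 g2
  rw [← hbi] at g3 g4
  have haa : D.nm a + D.nm a ≤ D.nm (a * a) + B := by
    have := hadd p p
    rwa [pow_add g p p, ← ha] at this
  have hbb : b * b = x * (a * a) * x⁻¹ := by rw [hb]; group
  have i1 := n8_norm D (x * (a * a)) x
  have i2 := n8_left D (a * a) x
  rw [← hbb] at i1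
  have hab := n8_mul D a b
  have hba := n8_mul D b a
  have hbac := D.comm b⁻¹ a
  have hlp := hlen p
  rw [← ha] at hlp
  refine ⟨a, b, k, ⟨by omega, by omega, ?_, by omega, by omega, ?_⟩, hfin⟩
  · rintro u (rfl | hu) v (rfl | hv)
    · omega
    · rw [Set.mem_singleton_iff.mp hv]; omega
    · rw [Set.mem_singleton_iff.mp hu]; omega
    · rw [Set.mem_singleton_iff.mp hu, Set.mem_singleton_iff.mp hv]; omega
  · rintro u (rfl | hu)
    · omega
    · rw [Set.mem_singleton_iff.mp hu]; omega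

end GWQ
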