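import Pool.Agent.H73.GWQ.Stmts
import Pool.Agent.H40.GWT.RW2

/-! Row R1Q of the board gwq (MP_213ba5_lc): linear progress of random words. -/

set_option autoImplicit false

open Classical

namespace GWQ

variable {ι G V : Type*} [Fintype ι] [Group G] (C : QCode ι G V)

/-- powers -/
theorem rq_pow (g : G) (n : ℕ) : C.d 1 (g ^ n) ≤ n * C.d 1 g := by
  induction n with
  | zero => rw [pow_zero, C.self]; omega
  | succ n ih =>
    have h1 := C.tri 1 (g ^ n) (g ^ (n + 1))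
    have h2 : C.d (g ^ n) (g ^ (n + 1)) = C.d 1 g := by
      have := C.inv (g ^ n) 1 g
      rwa [mul_one, ← pow_succ] at this
    have h3 : (n + 1) * C.d 1 g = n * C.d 1 g + C.d 1 g := by ring
    omega

/-- the fifth powers of the code are different -/
theorem rq_inj (h0 : H4QStmt C.toQM) (s t : ι) (h : C.c s ^ 5 = C.c t ^ 5) : s = t := by
  by_contra hne
  have key : ∀ s : ι, C.d (C.c s) (C.c s ^ 5) ≤ 4 * C.d 1 (C.c s) := by
    intro s
    have h1 := C.inv (C.c s) 1 (C.c s ^ 4)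
    rw [mul_one, ← pow_succ'] at h1
    rw [h1]
    exact rq_pow C (C.c s) 4
  have h1 := h0 (C.c s) (C.c t) 1 (C.c s ^ 5)
  have h2 := key s
  have h3 := key t
  rw [← h] at h3
  have h4 := C.p5 s
  have h5 := C.p5 t
  rw [← h] at h5
  have h6 := C.sep s t hne
  have h7 := C.sep t s (fun e => hne e.symm)
  have h8 := C.comm (C.c s) (C.c t)
  have h9 := C.comm (C.c s) 1
  have h10 := C.comm (C.c t) 1
  have h11 := C.hδ
  have h12 := C.K_pos
  rcases le_total (C.d (C.c s) 1 + C.d (C.c t) (C.c s ^ 5))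
    (C.d (C.c s) (C.c s ^ 5) + C.d (C.c t) 1) with h13 | h13
  · rw [max_eq_right h13] at h1
    omega
  · rw [max_eq_left h13] at h1
    omega

/-- the number of code words -/
theorem rq_card (h0 : H4QStmt C.toQM) {S : Type*} [Fintype S] (e : S → G) (wd : ι → List S)
    (k₀ : ℕ) (hl : ∀ s, (wd s).length = k₀) (he : ∀ s, GWP.ev e (wd s) = C.c s ^ 5) :
    C.M ^ 2 ≤ Fintype.card S ^ k₀ := by
  let f : ι → List.Vector S k₀ := fun s => ⟨wd s, hl s⟩
  have hinj : Function.Injective f := by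
    intro s t h
    have h1 : wd s = wd t := congrArg Subtype.val h
    exact rq_inj C h0 s t (by rw [← he s, ← he t, h1])
  have h2 := Fintype.card_le_of_injective f hinj
  rwa [C.card, card_vector] at h2

/-- **R1Q** -/
theorem R1Q (S : Type*) [Fintype S] (h0 : H4QStmt C.toQM) (h1 : RWQStmt C S)
    (h2 : PVQStmt C) : R1QStmt C S := by
  intro e wd k₀ hk hl he
  have hM : (8 : ℝ) ≤ C.M := by exact_mod_cast C.M_big
  have hM0 : (0 : ℝ) < (C.M : ℝ) := by linarith
  have hM4 : (0 : ℝ) < (C.M : ℝ) ^ 2 := by positivity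
  have hcard : ((C.M : ℝ)) ^ 2 ≤ (Fintype.card S : ℝ) ^ k₀ := by
    exact_mod_cast rq_card C h0 e wd k₀ hl he
  have hq : (0 : ℝ) < (Fintype.card S : ℝ) ^ k₀ := lt_of_lt_of_le hM4 hcard
  have hδ0 : 0 < (C.M : ℝ) ^ 2 / 2 / (Fintype.card S : ℝ) ^ k₀ := by positivity
  have hδ1 : (C.M : ℝ) ^ 2 / 2 / (Fintype.card S : ℝ) ^ k₀ < 1 := by
    rw [div_lt_one hq]
    linarith
  obtain ⟨κ, k1, k2, k3⟩ := GWT.rw2_pow
    (1 - (C.M : ℝ) ^ 2 / 2 / (Fintype.card S : ℝ) ^ k₀) (by linarith) (by linarith) k₀ hk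
  set ρ : ℝ := 1 - (C.M : ℝ) ^ 2 / 2 / (Fintype.card S : ℝ) ^ k₀ with hρdef
  have hρ : (0 : ℝ) < ρ := by linarith
  have hlogκ : Real.log κ < 0 := Real.log_neg k1 k2
  have hlogM : 0 < Real.log (C.M : ℝ) := Real.log_pos (by linarith)
  refine ⟨-Real.log κ / (2 * Real.log (C.M : ℝ)), Real.exp (Real.log κ / 2), ρ⁻¹, ?_,
    Real.exp_pos _, ?_, by positivity, ?_⟩
  · apply div_pos
    · linarith
    · linarith
  · rw [Real.exp_lt_one_iff]
    linarith
  intro r
  set c : ℝ := -Real.log κ / (2 * Real.log (C.M : ℝ)) with hcdef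
  have hc : c * Real.log (C.M : ℝ) = -(Real.log κ / 2) := by
    rw [hcdef]
    field_simp
  have h3 := h1 e wd k₀ (fun g => (1 / (C.M : ℝ)) ^ (C.nm g)) 1 hk hl he zero_le_one
    (fun g => by positivity) (fun w m => by rw [one_mul]; exact h2 w m) r
  have hpt : ∀ z : List S, z.length = r →
      (if (C.nm (GWP.ev e z) : ℝ) < c * r then (1 : ℝ) else 0) ≤
      Real.exp (-(Real.log κ / 2) * r) *
        (1 / (C.M : ℝ)) ^ (C.nm (GWP.ev e z)) := by
    intro z _
    split_ifs with h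
    · have e1 : (1 / (C.M : ℝ)) ^ (C.nm (GWP.ev e z)) =
          Real.exp (-((C.nm (GWP.ev e z) : ℝ) * Real.log (C.M : ℝ))) := by
        rw [Real.exp_neg, Real.exp_nat_mul, Real.exp_log hM0, one_div, inv_pow]
      rw [e1, ← Real.exp_add]
      rw [Real.one_le_exp_iff]
      have h4 := mul_lt_mul_of_pos_right h hlogM
      have h5 : c * (r : ℝ) * Real.log (C.M : ℝ) = -(Real.log κ / 2) * r := by
        rw [← hc]
        ring
      linarith
    · positivity
  have h6 := GWP.wsum_le r _ _ hpt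
  rw [GWP.wsum_mul] at h6
  refine le_trans h6 ?_
  have h7 := k3 r
  have hcr : (0 : ℝ) ≤ (Fintype.card S : ℝ) ^ r := by positivity
  have h8 : GWP.wsum r (fun z : List S => (1 / (C.M : ℝ)) ^ (C.nm (GWP.ev e z))) ≤
      (Fintype.card S : ℝ) ^ r * (ρ⁻¹ * κ ^ r) := by
    refine le_trans h3 ?_
    rw [one_mul]
    exact mul_le_mul_of_nonneg_left h7 hcr
  have hexp : (0 : ℝ) ≤ Real.exp (-(Real.log κ / 2) * r) := (Real.exp_pos _).le
  refine le_trans (mul_le_mul_of_nonneg_left h8 hexp) (le_of_eq ?_)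
  have e2 : Real.exp (-(Real.log κ / 2) * r) * κ ^ r = Real.exp (Real.log κ / 2) ^ r := by
    have e3 : κ ^ r = Real.exp ((r : ℝ) * Real.log κ) := by
      rw [Real.exp_nat_mul, Real.exp_log k1]
    rw [e3, ← Real.exp_add, ← Real.exp_nat_mul]
    congr 1
    ring
  rw [← e2]
  ring

end GWQ
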